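import Mathlib
import Pool.Agent.H32.Mem

namespace Pool.Agent.Results.MP_674d90_lc.SafetySep

open Pool.Agent.H32.Mem

theorem result : ∃ (C : Type) (_ : Fintype C) (_ : Nonempty C) (P : Set (List C)),
    GenFin {w : ℕ → C | ∀ n, (List.range n).map w ∉ P} ∧
      ¬ ChrFin {w : ℕ → C | ∀ n, (List.range n).map w ∉ P} := by
  obtain ⟨P, hP⟩ := W_safety
  exact ⟨Col, inferInstance, ⟨.a⟩, P, hP ▸ gen_W, hP ▸ not_chr⟩

end Pool.Agent.Results.MP_674d90_lc.SafetySep
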